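import Mathlib

set_option autoImplicit false

/-!
# A non-trivial `(3,3)`-factorisation of `K_12` (MP_3f0bb6_co)
-/

namespace Pool.Agent.Results.MP_3f0bb6_co.KTwelve

/-- `D` is an `(n-3,3)`-factorisation of `K_{2n}` of index `c`: a non-empty set of perfect
matchings of the complete graph on `2n` vertices such that, for every set `S` of six vertices,
exactly `c` matchings of `D` refine the partition `{S, Sᶜ}` (every edge lies inside `S` or
inside its complement), and `c > 0`. -/
def IsFactorisation (n : ℕ) (D : Set (⊤ : SimpleGraph (Fin (2 * n))).Subgraph) (c : ℕ) : Prop :=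
  D.Nonempty ∧ (∀ m ∈ D, m.IsPerfectMatching) ∧ 0 < c ∧
    ∀ S : Finset (Fin (2 * n)), S.card = 6 →
      {m ∈ D | ∀ x y, m.Adj x y → (x ∈ S ↔ y ∈ S)}.ncard = c

/-- the matchings: the digit number `x` to base sixteen is the partner of `x` -/
def codes : List ℕ :=
  [0x137824596ab, 0x176983254ab, 0x21467385a9b, 0x21543876a9b, 0x24638197a5b, 0x24781395a6b,
   0x25367918a4b, 0x51782a3469b, 0x54321a9876b, 0x57493a8612b, 0x6152a83479b, 0x6178a32549b,
   0x6243a18795b, 0x6524a97183b, 0x6729a13485b, 0x726a845193b, 0x746a839512b, 0x83a2561974b,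
   0x84a2319675b, 0x9a62813475b, 0x9a78563412b, 0x1073924586ba, 0x1089674523ba, 0x125784960ab3,
   0x126309458ab7, 0x126549870ab3, 0x128904365ab7, 0x128930457ab6, 0x13540298a6b7,
   0x13709562a4b8, 0x1403672a85b9, 0x1489356a70b2, 0x150342a786b9, 0x154320a987b6,
   0x157094a623b8, 0x157492a806b3, 0x158924a607b3, 0x16350a8294b7, 0x16478a2905b3,
   0x183a024596b7, 0x185a409723b6, 0x187a943650b2, 0x214530897ba6, 0x214783096ba5,
   0x2401356a7b89, 0x2461093a5b87, 0x254310a98b76, 0x258903a16b47, 0x26051a834b79,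
   0x26513a907b84, 0x26895a710b43, 0x2741a5690b83, 0x2765a9810b43, 0x280a54761b39,
   0x281a50734b96, 0x281a67305b94, 0x284a35697b01, 0x285a30917b46, 0x29a154760b83,
   0x29a350718b46, 0x29a415680b73, 0x29a467081b35, 0x29a785634b01, 0x30265871b94a,
   0x30461829b57a, 0x30526791b84a, 0x30578192b46a, 0x30896745b12a, 0x31065872b4a9,
   0x31246708b9a5, 0x31620945b8a7, 0x32061845ba79, 0x32078416ba59, 0x350467a8b129,
   0x352067a1b948, 0x354210a9b876, 0x356419a8b072, 0x358941a7b062, 0x36041a28b579,
   0x36240a18b957, 0x3721a406b985, 0x3760a921b548, 0x39a14027b586, 0x39a60821b547,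
   0x4025138b697a, 0x4071932b658a, 0x4152039b68a7, 0x4157809b23a6, 0x4172956b08a3,
   0x4176983b50a2, 0x4189527b06a3, 0x4317802ba596, 0x4320517ba968, 0x4351029ba687,
   0x4357819ba062, 0x4376982ba501, 0x453210ab9876, 0x457293ab6801, 0x46378a2b9501,
   0x46892a3b5701, 0x4710a32b6598, 0x4731a56b9082, 0x4752a09b1836, 0x49a5208b1736,
   0x49a7856b2301, 0x506319b2847a, 0x508967b3412a, 0x521043b76a98, 0x528913b06a74,
   0x531628b0a794, 0x536249b7a801, 0x542067ba1938, 0x543210ba9876, 0x548903ba6127,
   0x56213ab07984, 0x56301ab29478, 0x56314ab79082, 0x56891ab34072, 0x56892ab01734,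
   0x582a43b76901, 0x583a40b79126, 0x583a67b19042, 0x587a93b06124, 0x587a94b61032,
   0x59a304b68127, 0x59a638b17042, 0x60415b79238a, 0x60749b28153a, 0x62154b870a93,
   0x62739b108a54, 0x63054b87a129, 0x63178b02a495, 0x63240b18a957, 0x64051b8a2379,
   0x64078b2a1539, 0x64120b3a5897, 0x64250b8a1937, 0x64321b0a9875, 0x6735ab809124,
   0x6742ab395801, 0x680a4b172359, 0x680a5b721439, 0x69a14b072385, 0x69a20b451837,
   0x69a24b170853, 0x69a30b128457, 0x69a78b452301, 0x7025b183496a, 0x7031b562948a,
   0x7035b281964a, 0x7041b239568a, 0x7089b563412a, 0x7105b28346a9, 0x7106b83254a9,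
   0x7162b90348a5, 0x7165b98023a4, 0x7189b30264a5, 0x7231b4069a85, 0x7265b9810a43,
   0x7289b1305a64, 0x7351b290a684, 0x7361b902a485, 0x7432b10a9865, 0x7460b91a2358,
   0x7526b8a34901, 0x7530b4a69128, 0x784ab2190653, 0x785ab3926401, 0x816b394570a2,
   0x817b943650a2, 0x836b2945a701, 0x837b9045a126, 0x841b507a2396, 0x842b517a0963,
   0x842b673a5901, 0x843b210a9765, 0x846b392a7501, 0x850b32a17649, 0x852b34a67901,
   0x860b4a375129, 0x862b3a107954, 0x871ba2034695, 0x872ba1305964, 0x873ba1459062,
   0x876ba9134052, 0x876ba9210543, 0x89ab24160753, 0x89ab41375062, 0x89ab67452301,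
   0x90b35271864a, 0x90b52486173a, 0x90b78563412a, 0x91b4302875a6, 0x91b5048623a7,
   0x92b031457a68, 0x92b618034a75, 0x93b02416a758, 0x93b40218a657, 0x93b45078a126,
   0x93b62801a745, 0x93b78406a125, 0x94b0256a1738, 0x94b3210a8765, 0x97b0a2451638,
   0x97b0a3216548, 0x97b3a5608124, 0x97b4a3086125, 0x97b4a5681032, 0x98ba15602374,
   0x98ba54761032, 0xab0267134859, 0xab0658721439, 0xab1035627498, 0xab1043276598,
   0xab1352708694, 0xab1367028495, 0xab1425680793, 0xab4067192358, 0xab4321098765,
   0xab4638297501, 0xab5041972368, 0xab5067921438, 0xab5132907684, 0xab5413986072,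
   0xab5618902374, 0xab6159734082, 0xab6359728401, 0xab7291450863, 0xab7391208564,
   0xab8951702364, 0xab8967452301]

/-- digit -/
def nib (F x : ℕ) : ℕ := Nat.land (Nat.shiftRight F (4 * x)) 15

/-- the partner map -/
def partner (F : ℕ) (x : Fin 12) : Fin 12 := Fin.ofNat 12 (nib F x)

/-- the subgraph given by a code -/
def toSub (F : ℕ) : (⊤ : SimpleGraph (Fin (2 * 6))).Subgraph where
  verts := Set.univ
  Adj x y := partner F x = y ∧ partner F y = x ∧ x ≠ y
  adj_sub := fun h => h.2.2
  edge_vert := fun _ => Set.mem_univ _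
  symm := ⟨fun _ _ h => ⟨h.2.1, h.1, h.2.2.symm⟩⟩

/-- all the digits are all right -/
def okF (F : ℕ) : ℕ → Bool
  | 0 => true
  | k + 1 => (Nat.blt (nib F k) 12 && !(Nat.beq (nib F k) k) && Nat.beq (nib F (nib F k)) k) &&
      okF F k

/-- reconstruct -/
def recon (F : ℕ) : ℕ → ℕ
  | 0 => 0
  | k + 1 => nib F k * 16 ^ k + recon F k

/-- bit -/
def bit (s k : ℕ) : ℕ := Nat.land (Nat.shiftRight s k) 1

/-- the matching refines the bipartition given by the mask `s` -/
def okx (s F : ℕ) : ℕ → Bool
  | 0 => true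
  | k + 1 => (Nat.beq (bit s k) (bit s (nib F k))) && okx s F k

/-- population count -/
def pop (s : ℕ) : ℕ → ℕ
  | 0 => 0
  | k + 1 => bit s k + pop s k

/-- count with accumulator -/
def cnt (s : ℕ) : List ℕ → ℕ → ℕ
  | [], a => a
  | F :: l, a => bif okx s F 12 then cnt s l (a + 1) else cnt s l a

/-- all the masks -/
def chkAll : ℕ → Bool
  | 0 => true
  | s + 1 => (bif Nat.beq (pop s 12) 6 then Nat.beq (cnt s codes 0) 5 else true) && chkAll s

set_option maxRecDepth 1000000 in
theorem chk_all : chkAll 2048 = true := by decide +kernel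

set_option maxRecDepth 1000000 in
theorem codes_ok : ∀ F ∈ codes, okF F 12 = true := by decide +kernel

set_option maxRecDepth 1000000 in
theorem codes_recon : ∀ F ∈ codes, recon F 12 = F := by decide +kernel

/-- strictly increasing -/
def inc : ℕ → List ℕ → Bool
  | _, [] => true
  | a, b :: l => Nat.blt a b && inc b l

set_option maxRecDepth 1000000 in
theorem codes_inc : inc 0 codes = true := by decide +kernel

theorem inc_spec (l : List ℕ) : ∀ a, inc a l = true → (∀ x ∈ l, a < x) ∧ l.Nodup := by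
  induction l with
  | nil => intro a _; simp
  | cons b l ih =>
    intro a h
    simp only [inc, Bool.and_eq_true] at h
    obtain ⟨h1, h2⟩ := h
    have hab : a < b := by
      have : Nat.blt a b = true := h1
      simpa [Nat.blt_eq] using this
    obtain ⟨h3, h4⟩ := ih b h2
    refine ⟨?_, ?_⟩
    · intro x hx
      rcases List.mem_cons.1 hx with rfl | hx
      · exact hab
      · exact hab.trans (h3 x hx)
    · rw [List.nodup_cons]
      exact ⟨fun hb => lt_irrefl _ (h3 b hb), h4⟩

theorem codes_nodup : codes.Nodup := (inc_spec codes 0 codes_inc).2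

theorem okF_spec {F : ℕ} : ∀ K, okF F K = true → ∀ k < K, nib F k < 12 ∧ nib F k ≠ k ∧
    nib F (nib F k) = k := by
  intro K
  induction K with
  | zero => intro _ k hk; omega
  | succ K ih =>
    intro h k hk
    simp only [okF, Bool.and_eq_true, Bool.not_eq_true'] at h
    obtain ⟨⟨⟨h1, h2⟩, h3⟩, h4⟩ := h
    rcases Nat.lt_succ_iff_lt_or_eq.1 hk with hk | rfl
    · exact ih h4 k hk
    · refine ⟨by simpa [Nat.blt_eq] using h1, ?_, Nat.eq_of_beq_eq_true h3⟩
      exact Nat.ne_of_beq_eq_false h2

theorem okx_spec {s F : ℕ} : ∀ K, okx s F K = true ↔ ∀ k < K, bit s k = bit s (nib F k) := by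
  intro K
  induction K with
  | zero => simp [okx]
  | succ K ih =>
    simp only [okx, Bool.and_eq_true, ih]
    constructor
    · rintro ⟨h1, h2⟩ k hk
      rcases Nat.lt_succ_iff_lt_or_eq.1 hk with hk | rfl
      · exact h2 k hk
      · exact Nat.eq_of_beq_eq_true h1
    · intro h
      refine ⟨?_, fun k hk => h k (hk.trans (Nat.lt_succ_self _))⟩
      rw [h K (Nat.lt_succ_self _)]
      exact Nat.beq_refl _

theorem cnt_spec (s : ℕ) (l : List ℕ) : ∀ a, cnt s l a = a + (l.filter fun F => okx s F 12).length := by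
  induction l with
  | nil => intro a; rfl
  | cons F l ih =>
    intro a
    rw [cnt]
    cases h : okx s F 12
    · simp [h, ih]
    · simp [h, ih]
      omega

theorem chkAll_spec : ∀ K, chkAll K = true → ∀ s < K, pop s 12 = 6 →
    (codes.filter fun F => okx s F 12).length = 5 := by
  intro K
  induction K with
  | zero => intro _ s hs; omega
  | succ K ih =>
    intro h s hs hp
    simp only [chkAll, Bool.and_eq_true] at h
    obtain ⟨h1, h2⟩ := h
    rcases Nat.lt_succ_iff_lt_or_eq.1 hs with hs | rfl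
    · exact ih h2 s hs hp
    · rw [hp] at h1
      have h3 : cnt s codes 0 = 5 := Nat.eq_of_beq_eq_true h1
      rw [cnt_spec, zero_add] at h3
      exact h3

theorem recon_congr {F G : ℕ} : ∀ K, (∀ k < K, nib F k = nib G k) → recon F K = recon G K := by
  intro K
  induction K with
  | zero => intro _; rfl
  | succ K ih =>
    intro h
    rw [recon, recon, h K (Nat.lt_succ_self _), ih fun k hk => h k (hk.trans (Nat.lt_succ_self _))]

/-- a good code -/
def Good (F : ℕ) : Prop := okF F 12 = true ∧ recon F 12 = F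

theorem good_of_mem {F : ℕ} (h : F ∈ codes) : Good F := ⟨codes_ok F h, codes_recon F h⟩

theorem partner_val {F : ℕ} (h : Good F) (x : Fin 12) : (partner F x).val = nib F x.val := by
  show nib F x.val % 12 = nib F x.val
  exact Nat.mod_eq_of_lt (okF_spec 12 h.1 x.val x.2).1

theorem partner_ne {F : ℕ} (h : Good F) (x : Fin 12) : partner F x ≠ x := by
  intro e
  have := partner_val h x
  rw [e] at this
  exact (okF_spec 12 h.1 x.val x.2).2.1 this.symm

theorem partner_partner {F : ℕ} (h : Good F) (x : Fin 12) : partner F (partner F x) = x := by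
  apply Fin.ext
  rw [partner_val h, partner_val h]
  exact (okF_spec 12 h.1 x.val x.2).2.2

theorem adj_iff {F : ℕ} (h : Good F) (x y : Fin 12) : (toSub F).Adj x y ↔ partner F x = y := by
  constructor
  · intro e
    exact e.1
  · rintro rfl
    exact ⟨rfl, partner_partner h x, (partner_ne h x).symm⟩

theorem perfect {F : ℕ} (h : Good F) : (toSub F).IsPerfectMatching := by
  constructor
  · intro v _
    exact ⟨partner F v, (adj_iff h v _).2 rfl, fun w hw => ((adj_iff h v w).1 hw).symm⟩
  · intro v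
    trivial

theorem toSub_inj {F G : ℕ} (hF : Good F) (hG : Good G) (e : toSub F = toSub G) : F = G := by
  rw [← hF.2, ← hG.2]
  apply recon_congr
  intro k hk
  have h1 : (toSub G).Adj (⟨k, hk⟩ : Fin 12) (partner F ⟨k, hk⟩) := by
    rw [← e]
    exact (adj_iff hF _ _).2 rfl
  have h2 := (adj_iff hG _ _).1 h1
  have h3 := congrArg Fin.val h2
  rw [partner_val hF, partner_val hG] at h3
  exact h3.symm

/-- the factorisation -/
def D : Set (⊤ : SimpleGraph (Fin (2 * 6))).Subgraph := toSub '' {F | F ∈ codes}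

theorem bit_eq (s k : ℕ) : bit s k = (Nat.testBit s k).toNat := by
  rw [Nat.toNat_testBit]
  show (s >>> k) &&& 1 = _
  rw [Nat.and_one_is_mod, Nat.shiftRight_eq_div_pow]

theorem pop_eq (s : ℕ) : ∀ K, pop s K = ∑ i ∈ Finset.range K, (Nat.testBit s i).toNat := by
  intro K
  induction K with
  | zero => rfl
  | succ K ih => rw [pop, Finset.sum_range_succ, ih, bit_eq, add_comm]

theorem count_aux (S : Finset (Fin 12)) (hS : S.card = 6) (h11 : (11 : Fin 12) ∉ S) :
    {m ∈ D | ∀ x y : Fin 12, m.Adj x y → (x ∈ S ↔ y ∈ S)}.ncard = 5 := by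
  classical
  set s : ℕ := Nat.ofBits (fun i : Fin 12 => decide (i ∈ S)) with hs
  have hbit : ∀ x : Fin 12, Nat.testBit s x.val = decide (x ∈ S) := by
    intro x
    rw [hs, Nat.testBit_ofBits_lt _ _ x.2]
  have hlt : s < 2048 := by
    have : s < 2 ^ 11 := by
      apply Nat.lt_pow_two_of_testBit
      intro i hi
      by_cases h12 : 12 ≤ i
      · rw [hs, Nat.testBit_ofBits_ge _ _ h12]
      · have : i = 11 := by omega
        subst this
        have := hbit 11
        simpa [h11] using this
    simpa using this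
  have hpop : pop s 12 = 6 := by
    rw [pop_eq, ← hS, ← Fin.sum_univ_eq_sum_range (fun i => (Nat.testBit s i).toNat) 12,
      Finset.card_eq_sum_ones, ← Finset.sum_filter_add_sum_filter_not Finset.univ (fun x => x ∈ S)]
    have e1 : ∑ x ∈ Finset.univ.filter (fun x : Fin 12 => x ∈ S), (Nat.testBit s x.val).toNat =
        ∑ x ∈ S, 1 := by
      rw [Finset.filter_univ_mem]
      refine Finset.sum_congr rfl fun x hx => ?_
      rw [hbit]
      simp [hx]
    have e2 : ∑ x ∈ Finset.univ.filter (fun x : Fin 12 => ¬ x ∈ S),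
        (Nat.testBit s x.val).toNat = 0 := by
      refine Finset.sum_eq_zero fun x hx => ?_
      rw [hbit]
      simp [(Finset.mem_filter.1 hx).2]
    rw [e1, e2, add_zero]
  have hcount := chkAll_spec 2048 chk_all s hlt hpop
  have hset : {m ∈ D | ∀ x y : Fin 12, m.Adj x y → (x ∈ S ↔ y ∈ S)} =
      toSub '' ↑((codes.filter fun F => okx s F 12).toFinset) := by
    ext m
    simp only [D, Set.mem_ofPred_eq, Set.mem_image, Finset.mem_coe, List.mem_toFinset,
      List.mem_filter]
    constructor
    · rintro ⟨⟨F, hF, rfl⟩, h⟩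
      refine ⟨F, ⟨hF, ?_⟩, rfl⟩
      rw [okx_spec]
      intro k hk
      have hg := good_of_mem hF
      have h1 := h ⟨k, hk⟩ (partner F ⟨k, hk⟩) ((adj_iff hg _ _).2 rfl)
      have h2 := hbit ⟨k, hk⟩
      have h3 := hbit (partner F ⟨k, hk⟩)
      rw [partner_val hg] at h3
      simp only at h2 h3
      rw [bit_eq, bit_eq, h2, h3]
      congr 1
      exact decide_eq_decide.2 h1
    · rintro ⟨F, ⟨hF, hok⟩, rfl⟩
      refine ⟨⟨F, hF, rfl⟩, ?_⟩
      intro x y hxy
      have hg := good_of_mem hF
      have hp : partner F x = y := (adj_iff hg _ _).1 hxy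
      have h1 := (okx_spec 12).1 hok x.val x.2
      have h2 := hbit x
      have h3 := hbit y
      rw [← hp, partner_val hg] at h3
      rw [bit_eq, bit_eq, h2, h3] at h1
      have h4 : decide (x ∈ S) = decide (partner F x ∈ S) := by
        cases ha : decide (x ∈ S) <;> cases hb : decide (partner F x ∈ S) <;>
          simp [ha, hb] at h1 ⊢
      rw [← hp]
      exact decide_eq_decide.1 h4
  rw [hset, Set.InjOn.ncard_image, Set.ncard_coe_finset, List.toFinset_card_of_nodup, hcount]
  · exact codes_nodup.filter _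
  · intro F hF G hG e
    simp only [Finset.mem_coe, List.mem_toFinset, List.mem_filter] at hF hG
    exact toSub_inj (good_of_mem hF.1) (good_of_mem hG.1) e

theorem count (S : Finset (Fin 12)) (hS : S.card = 6) :
    {m ∈ D | ∀ x y : Fin 12, m.Adj x y → (x ∈ S ↔ y ∈ S)}.ncard = 5 := by
  by_cases h : (11 : Fin 12) ∈ S
  · have hc : Sᶜ.card = 6 := by
      rw [Finset.card_compl, hS, Fintype.card_fin]
    rw [← count_aux Sᶜ hc (by simpa using h)]
    congr 1
    ext m
    simp only [Set.mem_ofPred_eq, Finset.mem_compl, not_iff_not]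
  · exact count_aux S hS h

theorem good₀ : Good 0xab8967451032 := by
  constructor <;> decide +kernel

theorem result : ∃ n : ℕ, 6 ≤ n ∧ ∃ (D : Set (⊤ : SimpleGraph (Fin (2 * n))).Subgraph) (c : ℕ),
    IsFactorisation n D c ∧ D ≠ {m | m.IsPerfectMatching} := by
  refine ⟨6, le_rfl, D, 5, ⟨?_, ?_, by norm_num, count⟩, ?_⟩
  · exact ⟨_, Set.mem_image_of_mem _ (show 0x137824596ab ∈ codes from by decide +kernel)⟩
  · rintro _ ⟨F, hF, rfl⟩
    exact perfect (good_of_mem hF)
  · intro h
    have h1 : toSub 0xab8967451032 ∈ D := by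
      rw [h]
      exact perfect good₀
    obtain ⟨F, hF, e⟩ := h1
    have h2 := toSub_inj (good_of_mem hF) good₀ e
    rw [h2] at hF
    have h3 : (0xab8967451032 : ℕ) ∉ codes := by decide +kernel
    exact h3 hF

end Pool.Agent.Results.MP_3f0bb6_co.KTwelve
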